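import Mathlib

set_option autoImplicit false

/-!
# MP_85ff8f_ag: the numbers (all `K ≥ 2 d`, blocks with `≥ 4` rows, `3` rows, and the part with `≤ 2` rows)

`T, TE` : number of C- resp. E-blocks with at least four rows, `L1` the number of their letters,
`v, vE` : number of C- resp. E-blocks with three rows (two, resp. three letters), `u` the letters
left at the end.
-/

namespace Pool.Agent.H59.OP

theorem num {d K s i j t u v vE T TE L1 x : ℕ} (hd : 2 ≤ d) (hK : 2 * d ≤ K)
    (hp : 2 * (s + i + j) + 6 ≤ 3 * K) (hs : K + 2 ≤ s + 2 * d) (ht : t ≤ i + 2 * j)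
    (hN : s + i = L1 + 2 * v + 3 * vE + u) (hL : 3 * T + 4 * TE ≤ L1)
    (hend : (u + T + v ≤ K ∧ K < u + d + T + v) ∨ K = u + T + v)
    (hx : s ≤ L1 + x)
    (h2 : (d - 1) * u + K + T + v + 2 * TE + 2 * vE ≤ 2 * t)
    (h3 : (d - 1) * (u + 2 * v + 3 * vE) + x + K + 2 * T + 3 * TE ≤ 3 * t)
    (h0 : T + TE = 0 → L1 = 0) : False := by
  have hlast : K < u + d + T + v := by omega
  rcases Nat.lt_or_ge d 9 with h9 | h9
  · clear hend
    rcases Nat.lt_or_ge d 3 with hh | hh
    · obtain rfl : d = 2 := by omega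
      omega
    rcases Nat.lt_or_ge d 4 with hh | hh
    · obtain rfl : d = 3 := by omega
      omega
    rcases Nat.lt_or_ge d 5 with hh | hh
    · obtain rfl : d = 4 := by omega
      omega
    rcases Nat.lt_or_ge d 6 with hh | hh
    · obtain rfl : d = 5 := by omega
      omega
    rcases Nat.lt_or_ge d 7 with hh | hh
    · obtain rfl : d = 6 := by omega
      omega
    rcases Nat.lt_or_ge d 8 with hh | hh
    · obtain rfl : d = 7 := by omega
      omega
    · obtain rfl : d = 8 := by omega
      omega
  · obtain ⟨e, rfl⟩ : ∃ e, d = e + 9 := ⟨d - 9, by omega⟩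
    have e1 : e + 9 - 1 = e + 8 := by omega
    rw [e1] at h2 h3
    have e2 : (e + 8) * u = e * u + 8 * u := by ring
    have e3 : (e + 8) * (u + 2 * v + 3 * vE)
        = e * u + 2 * (e * v) + 3 * (e * vE) + 8 * u + 16 * v + 24 * vE := by ring
    rw [e2] at h2
    rw [e3] at h3
    have hE : e * u + 2 * (e * v) + 11 * v + 6 * K ≤ 17 * e + 118 := by omega
    have hD : e * u + 3 * u + 4 * K ≤ 11 * e + 76 + 2 * v := by omega
    have hNN : 3 * K ≤ 6 * e + 42 + 4 * u + 2 * v := by omega
    have hu : u ≤ 2 ∨ 3 ≤ u := by omega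
    rcases hu with hu | hu
    · interval_cases u
      · have : 6 ≤ v := by omega
        have : e * 6 ≤ e * v := Nat.mul_le_mul_left e this
        omega
      · have : 4 ≤ v := by omega
        have : e * 4 ≤ e * v := Nat.mul_le_mul_left e this
        omega
      · have : 2 ≤ v := by omega
        have : e * 2 ≤ e * v := Nat.mul_le_mul_left e this
        omega
    · have h6 : e * 3 ≤ e * u := Nat.mul_le_mul_left e hu
      have h5 : 3 ≤ v := by omega
      have : e * 3 ≤ e * v := Nat.mul_le_mul_left e h5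
      omega

end Pool.Agent.H59.OP
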